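import Mathlib
import Pool.Agent.H76.CR.ZFacts
import Pool.Agent.H76.CR.DerivL

/-!
# Repulsion of zeros near the line `Re s = 1`: definitions
-/

set_option autoImplicit false

open Complex

namespace Pool.Agent.H76.RP

/-- the zeros of `ζ` in the disc `|u - (1 + it)| < r` -/
def disc (r t : ℝ) : Set ℂ := {u : ℂ | riemannZeta u = 0 ∧ ‖u - (1 + t * I)‖ < r}

/-- their number, with multiplicity -/
noncomputable def zc (r t : ℝ) : ℕ := ∑ᶠ u ∈ disc r t, analyticOrderNatAt riemannZeta u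

/-- the number, with multiplicity, of zeros with `Re u > 1 - r`, `|Im u| ≤ H` -/
noncomputable def zlow (r H : ℝ) : ℕ :=
  ∑ᶠ u ∈ {u : ℂ | riemannZeta u = 0 ∧ 1 - r < u.re ∧ |u.im| ≤ H}, analyticOrderNatAt riemannZeta u

end Pool.Agent.H76.RP
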