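import Mathlib
import Pool.Agent.H76.RP.Defs

/-!
# Geo: the geometric sum

`ζ = 1/(a+w)`, `z = q a ζ`, `b = (1-q) a`: `∑_(k<K) (qa)^k ζ^(k+1) = (1 - z^K) ζ/(1-z) =
(1 - z^K)/(b + w)` (`a + w - q a = b + w`), `|z| ≤ q` since `|a+w| ≥ a`; and
`∑_(k0 ≤ k < K) = ∑_(k<K) - ∑_(k<k0)`, where the last sum has absolute value at most
`∑_(k<k0) (qa)^k/a^(k+1) ≤ k0/a`.  `|z^K/(b+w)| ≤ q^K/b ≤ 1/a`.  About 60 lines.
-/

set_option autoImplicit false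

open Complex

namespace Pool.Agent.H76.RP

theorem geo {a q : ℝ} (ha : 0 < a) (hq : 0 < q) (hq1 : q < 1) {k0 K : ℕ} (hk : k0 ≤ K)
    (hK : q ^ K ≤ 1 - q) {w : ℂ} (hw : 0 ≤ w.re) :
    -(∑ k ∈ Finset.Ico k0 K, ((q * a : ℝ) : ℂ) ^ k / (a + w) ^ (k + 1)).re ≤
      -(1 / (((1 - q) * a : ℝ) + w)).re + (k0 + 1) / a := by
  have hb : 0 < (1 - q) * a := mul_pos (sub_pos.2 hq1) ha
  have hAre : a ≤ ((a : ℂ) + w).re := by
    rw [add_re, ofReal_re]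
    linarith
  have hAn : a ≤ ‖(a : ℂ) + w‖ := hAre.trans ((le_abs_self _).trans (abs_re_le_norm _))
  have hA0 : (a : ℂ) + w ≠ 0 := by
    intro h
    rw [h, norm_zero] at hAn
    linarith
  have hBre : (1 - q) * a ≤ ((((1 - q) * a : ℝ) : ℂ) + w).re := by
    rw [add_re, ofReal_re]
    linarith
  have hBn : (1 - q) * a ≤ ‖(((1 - q) * a : ℝ) : ℂ) + w‖ :=
    hBre.trans ((le_abs_self _).trans (abs_re_le_norm _))
  have hB0 : (((1 - q) * a : ℝ) : ℂ) + w ≠ 0 := by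
    intro h
    rw [h, norm_zero] at hBn
    linarith
  obtain ⟨A, hA⟩ : ∃ A : ℂ, A = (a : ℂ) + w := ⟨_, rfl⟩
  obtain ⟨Bc, hBc⟩ : ∃ Bc : ℂ, Bc = (((1 - q) * a : ℝ) : ℂ) + w := ⟨_, rfl⟩
  rw [← hA] at hAn hA0 ⊢
  rw [← hBc] at hBn hB0 ⊢
  obtain ⟨z, hz⟩ : ∃ z : ℂ, z = ((q * a : ℝ) : ℂ) / A := ⟨_, rfl⟩
  have hzn : ‖z‖ ≤ q := by
    rw [hz, norm_div, norm_real, Real.norm_of_nonneg (mul_pos hq ha).le,
      div_le_iff₀ (lt_of_lt_of_le ha hAn)]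
    exact mul_le_mul_of_nonneg_left hAn hq.le
  have hz1 : ‖z‖ ≤ 1 := hzn.trans hq1.le
  have hterm : ∀ k : ℕ, ((q * a : ℝ) : ℂ) ^ k / A ^ (k + 1) = z ^ k / A := by
    intro k
    rw [hz, div_pow, pow_succ, div_div]
  have hAz : (1 - z) * A = Bc := by
    rw [hz, sub_mul, one_mul, div_mul_cancel₀ _ hA0, hA, hBc]
    push_cast
    ring
  have hsum : ∀ n : ℕ, (∑ k ∈ Finset.range n, z ^ k / A) = (1 - z ^ n) / Bc := by
    intro n
    have h1 : (∑ k ∈ Finset.range n, z ^ k) * (1 - z) = 1 - z ^ n := by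
      have := geom_sum_mul_neg z n
      exact this
    rw [← Finset.sum_div, eq_div_iff hB0, ← hAz, ← h1]
    field_simp
  have e1 : (∑ k ∈ Finset.Ico k0 K, ((q * a : ℝ) : ℂ) ^ k / A ^ (k + 1)) =
      (1 - z ^ K) / Bc - ∑ k ∈ Finset.range k0, z ^ k / A := by
    rw [Finset.sum_congr rfl (fun k _ => hterm k), Finset.sum_Ico_eq_sub _ hk, hsum K]
  rw [e1, sub_div, sub_re, sub_re]
  have h2 : (z ^ K / Bc).re ≤ 1 / a := by
    refine (le_abs_self _).trans ((abs_re_le_norm _).trans ?_)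
    rw [norm_div, norm_pow, div_le_iff₀ (lt_of_lt_of_le hb hBn)]
    have h3 : ‖z‖ ^ K ≤ q ^ K := pow_le_pow_left₀ (norm_nonneg _) hzn K
    have h4 : 1 - q ≤ 1 / a * ‖Bc‖ := by
      rw [one_div, ← div_eq_inv_mul, le_div_iff₀ ha]
      exact hBn
    exact h3.trans (hK.trans h4)
  have h5 : (∑ k ∈ Finset.range k0, z ^ k / A).re ≤ k0 / a := by
    refine (le_abs_self _).trans ((abs_re_le_norm _).trans ((norm_sum_le _ _).trans ?_))
    have h6 : ∀ k ∈ Finset.range k0, ‖z ^ k / A‖ ≤ 1 / a := by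
      intro k _
      rw [norm_div, norm_pow]
      exact div_le_div₀ zero_le_one (pow_le_one₀ (norm_nonneg _) hz1) ha hAn
    refine (Finset.sum_le_sum h6).trans ?_
    rw [Finset.sum_const, Finset.card_range, nsmul_eq_mul, mul_one_div]
  have h7 : ((k0 : ℝ) + 1) / a = k0 / a + 1 / a := add_div _ _ _
  rw [h7]
  linarith

theorem re_inv_nonneg {b : ℝ} (hb : 0 < b) {w : ℂ} (hw : 0 ≤ w.re) :
    0 ≤ (1 / ((b : ℂ) + w)).re := by
  rw [one_div, inv_re]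
  refine div_nonneg ?_ (normSq_nonneg _)
  rw [add_re, ofReal_re]
  linarith

end Pool.Agent.H76.RP
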