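import Mathlib
import Pool.Agent.H76.RP.Defs

/-!
# ZcF: finiteness of the sets of zeros

`disc r t`, `r ≤ 1`: a point `u` of it is not `1` (`riemannZeta 1 ≠ 0`, `riemannZeta_one_ne_zero` or
`re_lt_one`), so it is a zero of `zetaPole` (`zetaPole_eq_zero_iff`) in a closed ball around `2`
(`zeros_finite` in `H6/Win/ZetaLoc.lean`; as `near_finite` in `H76/CR/ZFacts.lean`).  The set in `zlow`
likewise (`0 ≤ 1 - r < re u < 1`).  `zc_sum`, `zlow_sum`: `finsum_mem_eq_finite_toFinset_sum`.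
`zc_ge`: a finset of zeros in the disc.  `zc_mono`.  `zc_pos`: a zero `ρ`, `1 - re ρ < r` is in
`disc r (im ρ)`, with multiplicity at least 1 (`analyticOrderNatAt ≠ 0`: the order is not `0` since
`ζ ρ = 0` and not `⊤`; in `SV/DkLocalV.lean` this is the statement `1 ≤ zord u`).
`zc_zlow`: a sum over `ρ ≠ ρ'` of `S` (ordinates 1-separated, differences at most `H`) of
`zc r (im ρ - im ρ')`: exchange the sums; every `u` counted for `(ρ, ρ')` satisfies `re u > 1 - r`,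
`|im u - (im ρ - im ρ')| < r ≤ 1`, hence `|im u| ≤ H + 1`, and for given `ρ`, `u` at most 3 values of
`ρ'` (`im ρ'` is in an interval of length `2r ≤ 2`).  About 170 lines.
-/

set_option autoImplicit false

open Complex

namespace Pool.Agent.H76.RP

open Pool.Agent.H76.CR

private theorem ne_one {u : ℂ} (hu : riemannZeta u = 0) : u ≠ 1 := by
  rintro rfl
  exact riemannZeta_one_ne_zero hu

theorem disc_finite {r : ℝ} (hr : r ≤ 1) (t : ℝ) : (disc r t).Finite := by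
  refine (Pool.Agent.H6.zeros_finite (‖(1 + t * I : ℂ) - 2‖ + r)).subset ?_
  rintro u ⟨hu, hn⟩
  refine ⟨?_, (zetaPole_eq_zero_iff (ne_one hu)).2 hu⟩
  rw [Metric.mem_closedBall, dist_eq_norm]
  calc ‖u - 2‖ = ‖(u - (1 + t * I)) + ((1 + t * I : ℂ) - 2)‖ := by congr 1; ring
    _ ≤ ‖u - (1 + t * I)‖ + ‖(1 + t * I : ℂ) - 2‖ := norm_add_le _ _
    _ ≤ ‖(1 + t * I : ℂ) - 2‖ + r := by linarith

theorem zc_sum {r : ℝ} (hr : r ≤ 1) (t : ℝ) :
    zc r t = ∑ u ∈ (disc_finite hr t).toFinset, analyticOrderNatAt riemannZeta u :=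
  finsum_mem_eq_finite_toFinset_sum _ (disc_finite hr t)

theorem zc_ge {r : ℝ} (hr : r ≤ 1) (t : ℝ) (S : Finset ℂ) (hS : ∀ u ∈ S, u ∈ disc r t) :
    ∑ u ∈ S, analyticOrderNatAt riemannZeta u ≤ zc r t := by
  rw [zc_sum hr]
  refine Finset.sum_le_sum_of_subset ?_
  intro u hu
  rw [Set.Finite.mem_toFinset]
  exact hS u hu

theorem zc_mono {r r' : ℝ} (h : r ≤ r') (hr : r' ≤ 1) (t : ℝ) : zc r t ≤ zc r' t := by
  rw [zc_sum (h.trans hr)]
  refine zc_ge hr t _ fun u hu => ?_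
  rw [Set.Finite.mem_toFinset] at hu
  exact ⟨hu.1, lt_of_lt_of_le hu.2 h⟩

theorem ord_pos {u : ℂ} (hu : riemannZeta u = 0) : 1 ≤ analyticOrderNatAt riemannZeta u := by
  rw [← zord_eq (ne_one hu)]
  exact Pool.Agent.H6.zord_pos ((zetaPole_eq_zero_iff (ne_one hu)).2 hu)

theorem zc_pos {r : ℝ} (hr : r ≤ 1) {ρ : ℂ} (hρ : riemannZeta ρ = 0) (h : 1 - ρ.re < r) :
    1 ≤ zc r ρ.im := by
  have h1 : ρ - (1 + ρ.im * I) = ((ρ.re - 1 : ℝ) : ℂ) := by
    apply Complex.ext <;> simp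
  have h2 : ‖ρ - (1 + ρ.im * I)‖ < r := by
    rw [h1, Complex.norm_real, Real.norm_eq_abs, abs_lt]
    have := re_lt_one hρ
    constructor <;> linarith
  refine le_trans (ord_pos hρ) (le_trans ?_ (zc_ge hr ρ.im {ρ} ?_))
  · rw [Finset.sum_singleton]
  · intro u hu
    rw [Finset.mem_singleton] at hu
    subst hu
    exact ⟨hρ, h2⟩

private theorem low_finite {r : ℝ} (hr : r ≤ 1) (H : ℝ) :
    {u : ℂ | riemannZeta u = 0 ∧ 1 - r < u.re ∧ |u.im| ≤ H}.Finite := by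
  refine (Pool.Agent.H6.zeros_finite (2 + |H|)).subset ?_
  rintro u ⟨hu, h1, h2⟩
  refine ⟨?_, (zetaPole_eq_zero_iff (ne_one hu)).2 hu⟩
  rw [Metric.mem_closedBall, dist_eq_norm]
  have h3 := Complex.norm_le_abs_re_add_abs_im (u - 2)
  have h4 : |(u - 2).re| ≤ 2 := by
    have e : (u - 2).re = u.re - 2 := by simp
    have := re_lt_one hu
    rw [e, abs_le]
    constructor <;> linarith
  have h5 : |(u - 2).im| ≤ |H| := by
    have e : (u - 2).im = u.im := by simp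
    rw [e]
    exact h2.trans (le_abs_self H)
  linarith

private theorem card_le_two (S : Finset ℂ)
    (hS : ∀ ρ ∈ S, ∀ ρ' ∈ S, ρ ≠ ρ' → 1 ≤ |ρ.im - ρ'.im|) (x y : ℝ) :
    (S.filter fun ρ' => |y - (x - ρ'.im)| < 1).card ≤ 2 := by
  by_contra hc
  rw [not_le, Finset.two_lt_card] at hc
  obtain ⟨a, ha, b, hb, c, hc, hab, hac, hbc⟩ := hc
  rw [Finset.mem_filter, abs_lt] at ha hb hc
  have h1 := hS a ha.1 b hb.1 hab
  have h2 := hS a ha.1 c hc.1 hac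
  have h3 := hS b hb.1 c hc.1 hbc
  rw [le_abs] at h1 h2 h3
  obtain ⟨-, ha1, ha2⟩ := ha
  obtain ⟨-, hb1, hb2⟩ := hb
  obtain ⟨-, hc1, hc2⟩ := hc
  rcases h1 with h1 | h1 <;> rcases h2 with h2 | h2 <;> rcases h3 with h3 | h3 <;> linarith

theorem zc_zlow {r H : ℝ} (hr : r ≤ 1) (S : Finset ℂ)
    (hS : ∀ ρ ∈ S, ∀ ρ' ∈ S, ρ ≠ ρ' → 1 ≤ |ρ.im - ρ'.im|)
    (hH : ∀ ρ ∈ S, ∀ ρ' ∈ S, |ρ.im - ρ'.im| ≤ H) :
    ∑ ρ ∈ S, ∑ ρ' ∈ S, (if ρ = ρ' then 0 else zc r (ρ.im - ρ'.im)) ≤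
      3 * S.card * zlow r (H + 1) := by
  classical
  set Z : Finset ℂ := (low_finite hr (H + 1)).toFinset with hZ
  have hlow : zlow r (H + 1) = ∑ u ∈ Z, analyticOrderNatAt riemannZeta u :=
    finsum_mem_eq_finite_toFinset_sum _ (low_finite hr (H + 1))
  have h1 : ∀ ρ ∈ S, ∀ ρ' ∈ S, (if ρ = ρ' then 0 else zc r (ρ.im - ρ'.im)) ≤
      ∑ u ∈ Z, if |u.im - (ρ.im - ρ'.im)| < 1 then analyticOrderNatAt riemannZeta u else 0 := by
    intro ρ hρ ρ' hρ'
    split_ifs with h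
    · exact Nat.zero_le _
    · rw [zc_sum hr, ← Finset.sum_filter]
      refine Finset.sum_le_sum_of_subset ?_
      intro u hu
      rw [Set.Finite.mem_toFinset] at hu
      obtain ⟨hu0, hun⟩ := hu
      have hre : |(u - (1 + ((ρ.im - ρ'.im : ℝ) : ℂ) * I)).re| < r :=
        lt_of_le_of_lt (abs_re_le_norm _) hun
      have him : |(u - (1 + ((ρ.im - ρ'.im : ℝ) : ℂ) * I)).im| < r :=
        lt_of_le_of_lt (abs_im_le_norm _) hun
      have e1 : (u - (1 + ((ρ.im - ρ'.im : ℝ) : ℂ) * I)).re = u.re - 1 := by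
        simp [Complex.mul_re]
      have e2 : (u - (1 + ((ρ.im - ρ'.im : ℝ) : ℂ) * I)).im = u.im - (ρ.im - ρ'.im) := by
        simp [Complex.mul_im]
      rw [e1] at hre
      rw [e2] at him
      rw [Finset.mem_filter, hZ, Set.Finite.mem_toFinset]
      have hHd := hH ρ hρ ρ' hρ'
      refine ⟨⟨hu0, ?_, ?_⟩, lt_of_lt_of_le him hr⟩
      · have := (abs_lt.1 hre).1
        linarith
      · have h3 : |u.im| ≤ |u.im - (ρ.im - ρ'.im)| + |ρ.im - ρ'.im| := by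
          have := abs_add_le (u.im - (ρ.im - ρ'.im)) (ρ.im - ρ'.im)
          rwa [sub_add_cancel] at this
        linarith
  calc ∑ ρ ∈ S, ∑ ρ' ∈ S, (if ρ = ρ' then 0 else zc r (ρ.im - ρ'.im))
      ≤ ∑ ρ ∈ S, ∑ ρ' ∈ S, ∑ u ∈ Z,
          (if |u.im - (ρ.im - ρ'.im)| < 1 then analyticOrderNatAt riemannZeta u else 0) :=
        Finset.sum_le_sum fun ρ hρ => Finset.sum_le_sum fun ρ' hρ' => h1 ρ hρ ρ' hρ'
    _ = ∑ ρ ∈ S, ∑ u ∈ Z, ∑ ρ' ∈ S,
          (if |u.im - (ρ.im - ρ'.im)| < 1 then analyticOrderNatAt riemannZeta u else 0) :=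
        Finset.sum_congr rfl fun ρ _ => Finset.sum_comm
    _ ≤ ∑ ρ ∈ S, ∑ u ∈ Z, 2 * analyticOrderNatAt riemannZeta u := by
        refine Finset.sum_le_sum fun ρ _ => Finset.sum_le_sum fun u _ => ?_
        rw [← Finset.sum_filter, Finset.sum_const, smul_eq_mul]
        exact Nat.mul_le_mul_right _ (card_le_two S hS ρ.im u.im)
    _ = 2 * S.card * zlow r (H + 1) := by
        rw [hlow, Finset.sum_const, smul_eq_mul, ← Finset.mul_sum]
        ring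
    _ ≤ 3 * S.card * zlow r (H + 1) :=
        Nat.mul_le_mul_right _ (Nat.mul_le_mul_right _ (by norm_num))

end Pool.Agent.H76.RP
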