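import Mathlib
import Pool.Agent.H76.RP.Defs

/-!
# PosT: positivity

`D(t) = ∑' d_n n^(-it)`.  `0 ≤ ∑' d_n |λ + ∑_x n^(-ix)|^2`; for `n ≥ 1` the square is
`λ^2 + 2 λ ∑_x Re n^(-ix) + ∑_(x,z) Re n^(-i(x-z))`, and `d_0 = 0`.  About 80 lines.
`vecT`: `D(t2) + D(t2 - t1) = ∑' d_n n^(-i t2) (1 + n^(i t1))`, Cauchy-Schwarz:
`‖..‖^2 ≤ (∑' d_n) ∑' d_n |1 + n^(i t1)|^2 = (∑' d_n) (2 ∑' d_n + 2 Re D(t1))`.  About 80 lines.
(See `Pool/Agent/H76/TR/DualT.lean`, helper70, for the technique.)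
-/

set_option autoImplicit false

open Complex

namespace Pool.Agent.H76.RP

/-- the unimodular number `n^(-it)` -/
private noncomputable def ee (n : ℕ) (t : ℝ) : ℂ := Complex.exp (((-(t * Real.log n) : ℝ) : ℂ) * I)

private theorem ee_norm (n : ℕ) (t : ℝ) : ‖ee n t‖ = 1 := Complex.norm_exp_ofReal_mul_I _

private theorem ee_sub (n : ℕ) (x z : ℝ) : ee n (x - z) = ee n x * (starRingEnd ℂ) (ee n z) := by
  unfold ee
  rw [← Complex.exp_conj, ← Complex.exp_add, map_mul, Complex.conj_ofReal, Complex.conj_I]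
  congr 1
  push_cast
  ring

private theorem ee_eq {n : ℕ} (hn : n ≠ 0) (t : ℝ) : (n : ℂ) ^ (-((t : ℂ) * I)) = ee n t := by
  rw [Complex.cpow_def_of_ne_zero (by exact_mod_cast hn), ee, ← Complex.natCast_log]
  congr 1
  push_cast
  ring

private theorem term_eq (d : ℕ → ℝ) (hd0 : d 0 = 0) (t : ℝ) (n : ℕ) :
    (d n : ℂ) * (n : ℂ) ^ (-((t : ℂ) * I)) = (d n : ℂ) * ee n t := by
  by_cases hn : n = 0
  · subst hn
    rw [hd0, Complex.ofReal_zero, zero_mul, zero_mul]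
  · rw [ee_eq hn]

private theorem hasSumD (d : ℕ → ℝ) (hd : ∀ n, 0 ≤ d n) (hd0 : d 0 = 0) (hs : Summable d) (t : ℝ) :
    HasSum (fun n => (d n : ℂ) * ee n t) (∑' n : ℕ, (d n : ℂ) * (n : ℂ) ^ (-((t : ℂ) * I))) := by
  have h1 : Summable (fun n => (d n : ℂ) * ee n t) := by
    refine Summable.of_norm ?_
    refine hs.congr fun n => ?_
    rw [norm_mul, ee_norm, mul_one, Complex.norm_real, Real.norm_of_nonneg (hd n)]
  have h2 : (fun n : ℕ => (d n : ℂ) * (n : ℂ) ^ (-((t : ℂ) * I))) = fun n => (d n : ℂ) * ee n t :=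
    funext (term_eq d hd0 t)
  rw [h2]
  exact h1.hasSum

private theorem hasSumRe (d : ℕ → ℝ) (hd : ∀ n, 0 ≤ d n) (hd0 : d 0 = 0) (hs : Summable d) (t : ℝ) :
    HasSum (fun n => d n * (ee n t).re) (∑' n : ℕ, (d n : ℂ) * (n : ℂ) ^ (-((t : ℂ) * I))).re := by
  have h := Complex.hasSum_re (hasSumD d hd hd0 hs t)
  have e : (fun n => ((d n : ℂ) * ee n t).re) = fun n => d n * (ee n t).re :=
    funext fun n => Complex.re_ofReal_mul _ _
  rwa [e] at h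

theorem posT (d : ℕ → ℝ) (hd : ∀ n, 0 ≤ d n) (hd0 : d 0 = 0) (hs : Summable d) (X : Finset ℝ)
    (l : ℝ) : 0 ≤ l ^ 2 * (∑' n, d n) +
      2 * l * ∑ x ∈ X, (∑' n : ℕ, (d n : ℂ) * (n : ℂ) ^ (-(x * I))).re +
      ∑ x ∈ X, ∑ z ∈ X, (∑' n : ℕ, (d n : ℂ) * (n : ℂ) ^ (-(((x - z : ℝ) : ℂ) * I))).re := by
  have h0 : HasSum d (∑' n, d n) := hs.hasSum
  have h1 := ((h0.mul_left (l ^ 2)).add ((hasSum_sum (s := X) fun x _ => hasSumRe d hd hd0 hs x).mul_left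
    (2 * l))).add (hasSum_sum (s := X) fun x _ => hasSum_sum (s := X) fun z _ => hasSumRe d hd hd0 hs (x - z))
  refine h1.nonneg fun n => ?_
  have h2 : ∑ x ∈ X, ∑ z ∈ X, d n * (ee n (x - z)).re =
      d n * ((∑ x ∈ X, ee n x).re ^ 2 + (∑ x ∈ X, ee n x).im ^ 2) := by
    have h3 : ∑ x ∈ X, ∑ z ∈ X, ee n (x - z) = (∑ x ∈ X, ee n x) * (starRingEnd ℂ) (∑ x ∈ X, ee n x) := by
      rw [map_sum, Finset.sum_mul_sum]
      exact Finset.sum_congr rfl fun x _ => Finset.sum_congr rfl fun z _ => ee_sub n x z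
    have h4 := congrArg Complex.re h3
    rw [Complex.mul_conj, Complex.ofReal_re, Complex.normSq_apply, Complex.re_sum] at h4
    simp only [Complex.re_sum] at h4
    simp only [← Finset.mul_sum]
    rw [h4]
    simp only [Complex.re_sum, Complex.im_sum]
    ring
  have h5 : ∑ x ∈ X, d n * (ee n x).re = d n * (∑ x ∈ X, ee n x).re := by
    rw [Complex.re_sum, Finset.mul_sum]
  show 0 ≤ l ^ 2 * d n + 2 * l * ∑ x ∈ X, d n * (ee n x).re + ∑ x ∈ X, ∑ z ∈ X, d n * (ee n (x - z)).re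
  rw [h2, h5]
  have h6 : l ^ 2 * d n + 2 * l * (d n * (∑ x ∈ X, ee n x).re) +
      d n * ((∑ x ∈ X, ee n x).re ^ 2 + (∑ x ∈ X, ee n x).im ^ 2) =
      d n * ((l + (∑ x ∈ X, ee n x).re) ^ 2 + (∑ x ∈ X, ee n x).im ^ 2) := by ring
  rw [h6]
  exact mul_nonneg (hd n) (by positivity)

theorem vecT (d : ℕ → ℝ) (hd : ∀ n, 0 ≤ d n) (hd0 : d 0 = 0) (hs : Summable d) (t1 t2 : ℝ) :
    ‖(∑' n : ℕ, (d n : ℂ) * (n : ℂ) ^ (-(t2 * I))) +
      ∑' n : ℕ, (d n : ℂ) * (n : ℂ) ^ (-(((t2 - t1 : ℝ) : ℂ) * I))‖ ^ 2 ≤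
      (∑' n, d n) * (2 * (∑' n, d n) +
        2 * (∑' n : ℕ, (d n : ℂ) * (n : ℂ) ^ (-(t1 * I))).re) := by
  set S := ∑' n, d n with hS
  set Z := (∑' n : ℕ, (d n : ℂ) * (n : ℂ) ^ (-(t2 * I))) +
      ∑' n : ℕ, (d n : ℂ) * (n : ℂ) ^ (-(((t2 - t1 : ℝ) : ℂ) * I)) with hZ
  set R := (∑' n : ℕ, (d n : ℂ) * (n : ℂ) ^ (-(t1 * I))).re with hR
  have h0 : HasSum d S := hs.hasSum
  have hZs : HasSum (fun n => (d n : ℂ) * ee n t2 + (d n : ℂ) * ee n (t2 - t1)) Z :=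
    (hasSumD d hd hd0 hs t2).add (hasSumD d hd hd0 hs (t2 - t1))
  have hRs : HasSum (fun n => d n * (ee n t1).re) R := hasSumRe d hd hd0 hs t1
  have key : ∀ s : ℝ, 0 ≤ (‖Z‖ ^ 2 * S) * (s * s) + (-(2 * ‖Z‖ ^ 2)) * s + (2 * S + 2 * R) := by
    intro s
    have hZ2 : HasSum (fun n => (((d n : ℂ) * ee n t2 + (d n : ℂ) * ee n (t2 - t1)) *
        (starRingEnd ℂ) Z).re) (Z * (starRingEnd ℂ) Z).re := Complex.hasSum_re (hZs.mul_right _)
    have h1 := ((h0.mul_left (‖Z‖ ^ 2 * (s * s))).add (hZ2.mul_left (-(2 * s)))).add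
      ((h0.mul_left 2).add (hRs.mul_left 2))
    have h2 : (Z * (starRingEnd ℂ) Z).re = ‖Z‖ ^ 2 := by
      rw [Complex.mul_conj, Complex.ofReal_re, Complex.normSq_eq_norm_sq]
    have h3 := h1.nonneg fun n => ?_
    · rw [h2] at h3
      calc (0 : ℝ) ≤ _ := h3
        _ = _ := by ring
    · show 0 ≤ ‖Z‖ ^ 2 * (s * s) * d n + -(2 * s) * (((d n : ℂ) * ee n t2 + (d n : ℂ) * ee n (t2 - t1)) *
        (starRingEnd ℂ) Z).re + (2 * d n + 2 * (d n * (ee n t1).re))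
      have h4 : ee n t1 = ee n t2 * (starRingEnd ℂ) (ee n (t2 - t1)) := by
        rw [← ee_sub]
        congr 1
        ring
      have h5 : ∀ t, (ee n t).re ^ 2 + (ee n t).im ^ 2 = 1 := by
        intro t
        have := ee_norm n t
        rw [← Complex.sq_norm_sub_sq_re]
        rw [this]
        ring
      have h6 : ‖Z‖ ^ 2 = Z.re ^ 2 + Z.im ^ 2 := by
        rw [← Complex.normSq_eq_norm_sq, Complex.normSq_apply]
        ring
      rw [h4, h6]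
      have h7 := h5 t2
      have h8 := h5 (t2 - t1)
      generalize ee n t2 = p at *
      generalize ee n (t2 - t1) = q at *
      simp only [Complex.mul_re, Complex.add_re, Complex.add_im, Complex.conj_re, Complex.conj_im,
        Complex.ofReal_re, Complex.ofReal_im, Complex.mul_im, zero_mul, sub_zero, add_zero, mul_neg, sub_neg_eq_add]
      have h9 : (Z.re ^ 2 + Z.im ^ 2) * (s * s) * d n + -(2 * s) * ((d n * p.re + d n * q.re) * Z.re +
          (d n * p.im + d n * q.im) * Z.im) + (2 * d n + 2 * (d n * (p.re * q.re + p.im * q.im))) =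
          d n * ((s * Z.re - (p.re + q.re)) ^ 2 + (s * Z.im - (p.im + q.im)) ^ 2) := by
        linear_combination (-d n) * h7 - d n * h8
      refine le_of_le_of_eq (mul_nonneg (hd n) (by positivity)) (h9.symm.trans ?_)
      ring
  have h3 := discrim_le_zero key
  unfold discrim at h3
  by_cases hz : ‖Z‖ = 0
  · have h4 := key 0
    have hS0 : 0 ≤ S := tsum_nonneg hd
    rw [hz]
    have : 0 ≤ 2 * S + 2 * R := by linarith
    have := mul_nonneg hS0 this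
    nlinarith
  · have hz2 : 0 < ‖Z‖ ^ 2 := by positivity
    have h4 : ‖Z‖ ^ 2 * (‖Z‖ ^ 2 - S * (2 * S + 2 * R)) ≤ 0 := by nlinarith
    by_contra hcon
    push Not at hcon
    have : 0 < ‖Z‖ ^ 2 * (‖Z‖ ^ 2 - S * (2 * S + 2 * R)) := mul_pos hz2 (by linarith)
    linarith

end Pool.Agent.H76.RP
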