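import Mathlib
import Pool.Agent.H76.RP.Dk0
import Pool.Agent.H76.RP.PosT
import Pool.Agent.H76.RP.LocE
import Pool.Agent.H48.UP.Classical

/-!
# MainB: two isolated zeros (Deuring-Heilbronn phenomenon)

`a = r1 r`, `Λ = 4 log T`, one `k = ⌈A log log T⌉` with `A` large absolute: `err = C Λ/2^k ≤ (log T)^(-2)`.
`δ_j = 1 - re ρ_j`; by the classical zero-free region (`H48/UP/Classical.lean`) `δ_j ≥ c0/log T`.
If `δ_1 ≥ c r/log log T` the logarithm is `≤ 0`.  If `δ_2 ≥ a`: the left side is at most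
`c r (log (c r log T/(c0 log log T)))/log log T ≤ 2 c r ≤ a`.  Otherwise both zeros are in the small
discs and, with `x_t = a^(k+1) Dk a k t`: `|x_0 - 1| ≤ C/2^k` (`dk0`, `Dk_zero`),
`x_(γ1) = -(a/(a+δ_1))^(k+1) + O(err)` (`ρ_1` simple), `‖x_(γ2)‖ ≥ (a/(a+δ_2))^(k+1) - err`,
`‖x_(γ2-γ1)‖ ≤ err` (`locE_pt`; `|γ2-γ1| ≥ 1 ≥ 2a`; the disc at `γ2-γ1` is the conjugate of that at
`γ1-γ2`, or use the hypothesis for `γ2-γ1` as stated).  `vecT` (`d = a^(k+1) dco a k`, `t1 = γ1`,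
`t2 = γ2`): `‖x_(γ2)‖ ≤ err + √(x_0 (2x_0 + 2 Re x_(γ1))) ≤ err + √(3((k+1)δ_1/a + 2 err))`
(`1 - (a/(a+δ))^(k+1) ≤ (k+1) δ/a`), and `err ≤ (k+1) δ_1/a` since `δ_1 ≥ c0/log T`.  So
`exp(-(k+1) δ_2/a) ≤ (a/(a+δ_2))^(k+1) ≤ 5 √((k+1) δ_1/a)`, i.e.
`δ_2 ≥ (a/(2(k+1))) log(a/(25 (k+1) δ_1))`, and `k + 1 ≤ 2 A log log T`.  About 180 lines.
-/

set_option autoImplicit false

open Complex

namespace Pool.Agent.H76.RP

open Pool.Agent.H76.CR

private theorem mb_uniq {a r : ℝ} (hr : r ≤ 1) (har : 3 * a ≤ r) {ρ : ℂ} (hρ : riemannZeta ρ = 0)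
    (hd : 1 - ρ.re < r) (hz : zc r ρ.im ≤ 1) :
    analyticOrderNatAt riemannZeta ρ = 1 ∧ ∀ u ∈ disc (3 * a) ρ.im, u = ρ := by
  have h1 : ρ.re < 1 := re_lt_one hρ
  have hmem : ρ ∈ disc r ρ.im := by
    refine ⟨hρ, ?_⟩
    have e : ρ - (1 + ρ.im * I) = ((ρ.re - 1 : ℝ) : ℂ) := by
      apply Complex.ext <;> simp
    rw [e, Complex.norm_real, Real.norm_eq_abs, abs_of_neg (by linarith)]
    linarith
  have h2 := ord_pos hρ
  refine ⟨?_, ?_⟩
  · have h3 := zc_ge hr ρ.im {ρ} (by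
      intro u hu
      rw [Finset.mem_singleton] at hu
      rw [hu]
      exact hmem)
    rw [Finset.sum_singleton] at h3
    omega
  · intro u hu
    by_contra hne
    have hu' : u ∈ disc r ρ.im := ⟨hu.1, lt_of_lt_of_le hu.2 har⟩
    have h3 := zc_ge hr ρ.im {u, ρ} (by
      intro z hz
      rw [Finset.mem_insert, Finset.mem_singleton] at hz
      rcases hz with h | h
      · rw [h]; exact hu'
      · rw [h]; exact hmem)
    rw [Finset.sum_pair hne] at h3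
    have h4 := ord_pos hu.1
    omega

private theorem mb_empty {a r t : ℝ} (hr : r ≤ 1) (har : 3 * a ≤ r) (hz : zc r t = 0) : disc (3 * a) t = ∅ := by
  rw [Set.eq_empty_iff_forall_notMem]
  intro u hu
  have h3 := zc_ge hr t {u} (by
    intro z hz
    rw [Finset.mem_singleton] at hz
    rw [hz]
    exact ⟨hu.1, lt_of_lt_of_le hu.2 har⟩)
  rw [Finset.sum_singleton] at h3
  have h4 := ord_pos hu.1
  omega

/-- the numerical end of the proof -/
private theorem mb_num {p1 p2 E E' η x0 : ℝ} {X1 X2 X3 : ℂ} (hη : 0 < η) (hE0 : 0 ≤ E) (hE : E ≤ η) (hE' : E' ≤ η)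
    (hE'4 : E' ≤ 1 / 4) (hx0 : 0 ≤ x0) (hx : |x0 - 1| ≤ E') (h1 : ‖X1 + (p1 : ℂ)‖ ≤ E) (h2 : ‖X2 + (p2 : ℂ)‖ ≤ E)
    (h3 : ‖X3‖ ≤ E) (hp1 : 1 - η ≤ p1) (hp2 : 0 ≤ p2) (hp2' : p2 ≤ 1)
    (hv : ‖X2 + X3‖ ^ 2 ≤ x0 * (2 * x0 + 2 * X1.re)) : p2 ^ 2 ≤ 25 * η := by
  have hre : X1.re ≤ -p1 + E := by
    have h4 : |(X1 + (p1 : ℂ)).re| ≤ ‖X1 + (p1 : ℂ)‖ := Complex.abs_re_le_norm _
    rw [Complex.add_re, Complex.ofReal_re] at h4
    have h5 := (abs_le.1 (h4.trans h1)).2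
    linarith
  have hx1 := (abs_le.1 hx).2
  have hU : 2 * x0 + 2 * X1.re ≤ 6 * η := by linarith
  have hv2 : ‖X2 + X3‖ ^ 2 ≤ 15 / 2 * η := by
    have h6 : x0 * (2 * x0 + 2 * X1.re) ≤ x0 * (6 * η) := mul_le_mul_of_nonneg_left hU hx0
    have h7 : x0 * (6 * η) ≤ 5 / 4 * (6 * η) := mul_le_mul_of_nonneg_right (by linarith) (by linarith)
    linarith
  have hp : p2 ≤ 2 * E + ‖X2 + X3‖ := by
    have e : ((p2 : ℝ) : ℂ) = (X2 + (p2 : ℂ)) - (X2 + X3) + X3 := by ring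
    have h8 : ‖((p2 : ℝ) : ℂ)‖ ≤ ‖X2 + (p2 : ℂ)‖ + ‖X2 + X3‖ + ‖X3‖ := by
      calc ‖((p2 : ℝ) : ℂ)‖ = ‖(X2 + (p2 : ℂ)) - (X2 + X3) + X3‖ := by rw [← e]
        _ ≤ ‖(X2 + (p2 : ℂ)) - (X2 + X3)‖ + ‖X3‖ := norm_add_le _ _
        _ ≤ ‖X2 + (p2 : ℂ)‖ + ‖X2 + X3‖ + ‖X3‖ := by
          have := norm_sub_le (X2 + (p2 : ℂ)) (X2 + X3)
          linarith
    rw [Complex.norm_real, Real.norm_eq_abs, abs_of_nonneg hp2] at h8
    linarith
  by_cases h9 : η ≤ 1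
  · set w := Real.sqrt η with hw
    have hw0 : 0 ≤ w := Real.sqrt_nonneg η
    have hww : w ^ 2 = η := Real.sq_sqrt hη.le
    have hw1 : w ≤ 1 := by
      rw [hw]
      exact Real.sqrt_le_one.2 h9
    have hEw : E ≤ w := by nlinarith
    have hs : ‖X2 + X3‖ ≤ 14 / 5 * w := by
      refine (sq_le_sq₀ (norm_nonneg _) (by positivity)).1 ?_
      nlinarith
    have hp3 : p2 ≤ 24 / 5 * w := by linarith
    nlinarith
  · push Not at h9
    nlinarith

theorem mainB : ∃ c C : ℝ, 0 < c ∧ 1 ≤ C ∧ ∀ (r T : ℝ) (ρ₁ ρ₂ : ℂ), 0 < r → r ≤ 1 → C ≤ T →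
    1 ≤ r * T → riemannZeta ρ₁ = 0 → riemannZeta ρ₂ = 0 → 0 < ρ₁.re → 0 < ρ₂.re →
    1 ≤ |ρ₁.im| → |ρ₁.im| ≤ T → 1 ≤ |ρ₂.im| → |ρ₂.im| ≤ T → 1 ≤ |ρ₂.im - ρ₁.im| →
    zc r ρ₁.im ≤ 1 → zc r ρ₂.im ≤ 1 → zc r (ρ₂.im - ρ₁.im) = 0 →
    c * r * Real.log (c * r / ((1 - ρ₁.re) * Real.log (Real.log T))) / Real.log (Real.log T) ≤
      1 - ρ₂.re := by
  obtain ⟨c0, hc0, hcl⟩ := Pool.Agent.H48.UP.classical
  obtain ⟨r1, Cd, hr1, hr1', hCd, hdk⟩ := dk0
  obtain ⟨Cl, hCl, hloc⟩ := locE_pt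
  set L0 : ℝ := 4 + Real.log (1 / r1) + 4 * Cl / c0 + 2 * Cd / c0 + 4 * Cd with hL0
  have hlr1 : 0 ≤ Real.log (1 / r1) := Real.log_nonneg (by rw [le_div_iff₀ hr1]; linarith)
  have hq1 : 0 ≤ 4 * Cl / c0 := by positivity
  have hq2 : 0 ≤ 2 * Cd / c0 := by positivity
  refine ⟨min (r1 / 300) (c0 / 2), Real.exp L0, lt_min (by positivity) (by positivity),
    Real.one_le_exp (by linarith), ?_⟩
  intro r T ρ₁ ρ₂ hr hr' hT hrT hz1 hz2 hre1 hre2 him1 him1' him2 him2' hdif hzc1 hzc2 hzc0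
  set c : ℝ := min (r1 / 300) (c0 / 2) with hc
  have hcpos : 0 < c := lt_min (by positivity) (by positivity)
  have hc1 : c ≤ r1 / 300 := min_le_left _ _
  have hc2 : c ≤ c0 / 2 := min_le_right _ _
  set L : ℝ := Real.log T with hL
  have hTpos : 0 < T := lt_of_lt_of_le (Real.exp_pos _) hT
  have hLL : L0 ≤ L := by rw [hL, Real.le_log_iff_exp_le hTpos]; exact hT
  have hL4 : 4 ≤ L := by linarith
  have hT2 : 2 ≤ T := by
    have h1 : Real.exp 4 ≤ T := (Real.exp_le_exp.2 (by linarith)).trans hT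
    have h2 : (4 : ℝ) + 1 ≤ Real.exp 4 := Real.add_one_le_exp 4
    linarith
  set ℓ : ℝ := Real.log L with hℓ
  have hLpos : 0 < L := by linarith
  have hℓ1 : 1 ≤ ℓ := by
    rw [hℓ, Real.le_log_iff_exp_le hLpos]
    have := Real.exp_one_lt_d9
    linarith
  set a : ℝ := r1 * r with ha
  have ha0 : 0 < a := by positivity
  have har1 : a ≤ r1 := by
    rw [ha]
    nlinarith
  have ha4 : a ≤ 1 / 4 := by linarith
  have h3a : 3 * a ≤ r := by
    rw [ha]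
    nlinarith
  have har : a ≤ r := by linarith
  set δ₁ : ℝ := 1 - ρ₁.re with hδ1
  set δ₂ : ℝ := 1 - ρ₂.re with hδ2
  have hd1 : 0 < δ₁ := by have := re_lt_one hz1; linarith
  have hd2 : 0 < δ₂ := by have := re_lt_one hz2; linarith
  -- lower bound for δ₁
  have hlog2 : Real.log (2 + |ρ₁.im|) ≤ 2 * L := by
    have h1 : Real.log (2 + |ρ₁.im|) ≤ Real.log (T ^ 2) := by
      apply Real.log_le_log (by positivity)
      nlinarith
    rw [Real.log_pow] at h1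
    push_cast at h1
    linarith
  have hlog2' : 0 < Real.log (2 + |ρ₁.im|) := Real.log_pos (by linarith)
  have hd1' : c0 / (2 * L) ≤ δ₁ := by
    have h1 := hcl ρ₁ hz1 hre1
    have h2 : c0 / (2 * L) ≤ c0 / Real.log (2 + |ρ₁.im|) := div_le_div_of_nonneg_left hc0.le hlog2' hlog2
    linarith
  have hδℓ : 0 < δ₁ * ℓ := by positivity
  have harg : 0 < c * r / (δ₁ * ℓ) := by positivity
  by_cases hA1 : δ₁ < a
  swap
  · push Not at hA1
    have h1 : c * r / (δ₁ * ℓ) ≤ 1 := by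
      rw [div_le_one hδℓ]
      have h2 : c * r ≤ a := by rw [ha]; nlinarith
      nlinarith
    have h2 : Real.log (c * r / (δ₁ * ℓ)) ≤ 0 := Real.log_nonpos harg.le h1
    have h3 : c * r * Real.log (c * r / (δ₁ * ℓ)) / ℓ ≤ 0 :=
      div_nonpos_of_nonpos_of_nonneg (mul_nonpos_of_nonneg_of_nonpos (by positivity) h2) (by linarith)
    linarith
  by_cases hA2 : δ₂ < a
  swap
  · push Not at hA2
    have h1 : c * r / (δ₁ * ℓ) ≤ L := by
      rw [div_le_iff₀ hδℓ]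
      have h2 : c0 / 2 ≤ L * δ₁ := by
        have h3 : c0 / (2 * L) * L ≤ δ₁ * L := mul_le_mul_of_nonneg_right hd1' hLpos.le
        have h4 : c0 / (2 * L) * L = c0 / 2 := by field_simp
        linarith
      have h5 : L * δ₁ ≤ L * (δ₁ * ℓ) := by
        have : 0 < L * δ₁ := by positivity
        nlinarith
      nlinarith
    have h2 : Real.log (c * r / (δ₁ * ℓ)) ≤ ℓ := Real.log_le_log harg h1
    have h3 : c * r * Real.log (c * r / (δ₁ * ℓ)) / ℓ ≤ c * r := by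
      rw [div_le_iff₀ (by linarith)]
      exact mul_le_mul_of_nonneg_left h2 (by positivity)
    have h4 : c * r ≤ a := by rw [ha]; nlinarith
    linarith
  -- main case
  obtain ⟨ho1, hu1⟩ := mb_uniq hr' h3a hz1 (by linarith) hzc1
  obtain ⟨ho2, hu2⟩ := mb_uniq hr' h3a hz2 (by linarith) hzc2
  have he3 := mb_empty hr' h3a hzc0
  set k : ℕ := ⌈10 * ℓ⌉₊ with hk
  have hk1 : 10 * ℓ ≤ k := Nat.le_ceil _
  have hk2 : (k : ℝ) < 10 * ℓ + 1 := Nat.ceil_lt_add_one (by linarith)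
  have h2k : L ^ 6 ≤ (2 : ℝ) ^ k := by
    have h1 : Real.log (L ^ 6) ≤ Real.log ((2 : ℝ) ^ k) := by
      rw [Real.log_pow, Real.log_pow]
      have h2 := Real.log_two_gt_d9
      have h3 : (k : ℝ) * 0.6 ≤ k * Real.log 2 := mul_le_mul_of_nonneg_left (by linarith) (Nat.cast_nonneg k)
      push_cast
      linarith
    exact (Real.log_le_log_iff (by positivity) (by positivity)).1 h1
  have hkp : (0 : ℝ) < 2 ^ k := by positivity
  set E : ℝ := Cl * (4 * L) / 2 ^ (k + 1) with hEdef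
  set E' : ℝ := Cd / 2 ^ k with hE'def
  set η : ℝ := (k + 1) * δ₁ / a with hη
  have hηpos : 0 < η := by positivity
  have hηlow : c0 / (2 * L) ≤ η := by
    refine hd1'.trans ?_
    rw [hη, le_div_iff₀ ha0]
    have h1 : (0 : ℝ) ≤ k := Nat.cast_nonneg k
    nlinarith
  have hL1 : 1 ≤ L := by linarith
  have hE0 : 0 ≤ E := by positivity
  have hEη : E ≤ η := by
    refine le_trans ?_ hηlow
    rw [hEdef, div_le_div_iff₀ (by positivity) (by positivity), pow_succ]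
    have h1 : 4 * Cl ≤ c0 * L := by
      have h2 : 4 * Cl / c0 ≤ L := by linarith
      rw [div_le_iff₀ hc0] at h2
      linarith
    have h3 : L ^ 2 * L ≤ L ^ 6 := by
      have : L ^ 2 * L = L ^ 3 := by ring
      rw [this]
      exact pow_le_pow_right₀ hL1 (by norm_num)
    have h4 : 4 * Cl * L ^ 2 ≤ c0 * 2 ^ k := by
      calc 4 * Cl * L ^ 2 ≤ (c0 * L) * L ^ 2 := mul_le_mul_of_nonneg_right h1 (by positivity)
        _ = c0 * (L ^ 2 * L) := by ring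
        _ ≤ c0 * 2 ^ k := mul_le_mul_of_nonneg_left (h3.trans h2k) hc0.le
    nlinarith
  have hE'η : E' ≤ η := by
    refine le_trans ?_ hηlow
    rw [hE'def, div_le_div_iff₀ (by positivity) (by positivity)]
    have h1 : 2 * Cd ≤ c0 * L := by
      have h2 : 2 * Cd / c0 ≤ L := by linarith
      rw [div_le_iff₀ hc0] at h2
      linarith
    have h3 : L * L ≤ L ^ 6 := by
      have : L * L = L ^ 2 := by ring
      rw [this]
      exact pow_le_pow_right₀ hL1 (by norm_num)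
    calc Cd * (2 * L) = (2 * Cd) * L := by ring
      _ ≤ (c0 * L) * L := mul_le_mul_of_nonneg_right h1 hLpos.le
      _ = c0 * (L * L) := by ring
      _ ≤ c0 * 2 ^ k := mul_le_mul_of_nonneg_left (h3.trans h2k) hc0.le
  have hE'4 : E' ≤ 1 / 4 := by
    rw [hE'def, div_le_div_iff₀ (by positivity) (by norm_num)]
    have h1 : 4 * Cd ≤ L := by linarith
    have h3 : L ≤ L ^ 6 := by
      calc L = L ^ 1 := (pow_one L).symm
        _ ≤ L ^ 6 := pow_le_pow_right₀ hL1 (by norm_num)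
    linarith
  -- the kernel values
  have hlogA : Real.log (1 / a) ≤ 4 * L := by
    have h1 : 1 / a = 1 / r1 * (1 / r) := by rw [ha]; field_simp
    rw [h1, Real.log_mul (by positivity) (by positivity)]
    have h2 : Real.log (1 / r) ≤ L := by
      apply Real.log_le_log (by positivity)
      rw [div_le_iff₀ hr]
      linarith
    linarith
  have hlogt : ∀ t : ℝ, |t| ≤ 2 * T → Real.log (|t| + 2) ≤ 4 * L := by
    intro t ht
    have h1 : Real.log (|t| + 2) ≤ Real.log (T ^ 4) := by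
      apply Real.log_le_log (by positivity)
      have h2 : 4 ≤ T ^ 2 := by nlinarith
      have h3 : T ^ 4 = T ^ 2 * T ^ 2 := by ring
      nlinarith
    rw [Real.log_pow] at h1
    push_cast at h1
    linarith
  have hdT : |ρ₂.im - ρ₁.im| ≤ 2 * T := by
    have := abs_sub ρ₂.im ρ₁.im
    linarith
  have hX1 := (hloc a ρ₁.im (4 * L) k ha0 ha4 (by linarith) (by linarith) (hlogt _ (by linarith)) hlogA).2
    ρ₁ hz1 rfl hA1 hu1
  have hX2 := (hloc a ρ₂.im (4 * L) k ha0 ha4 (by linarith) (by linarith) (hlogt _ (by linarith)) hlogA).2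
    ρ₂ hz2 rfl hA2 hu2
  have hX3 := (hloc a (ρ₂.im - ρ₁.im) (4 * L) k ha0 ha4 (by linarith) (by linarith) (hlogt _ hdT) hlogA).1 he3
  rw [ho1, Nat.cast_one, one_mul] at hX1
  rw [ho2, Nat.cast_one, one_mul] at hX2
  have hx0 := hdk a k ha0 har1
  have hak : 0 < a ^ (k + 1) := by positivity
  have hd00 : dco a k 0 = 0 := by unfold dco; simp
  have hvec := vecT (dco a k) (dco_nonneg a k) hd00 (summable_dco ha0 k) ρ₁.im ρ₂.im
  have hD0 : 0 ≤ ∑' n : ℕ, dco a k n := tsum_nonneg (dco_nonneg a k)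
  set p1 : ℝ := (a / (a + δ₁)) ^ (k + 1) with hp1
  set p2 : ℝ := (a / (a + δ₂)) ^ (k + 1) with hp2
  have hp2pos : 0 < p2 := by positivity
  have hp2one : p2 ≤ 1 := by
    rw [hp2]
    apply pow_le_one₀ (by positivity)
    rw [div_le_one (by positivity)]
    linarith
  have hp1low : 1 - η ≤ p1 := by
    have h1 : 1 - δ₁ / a ≤ a / (a + δ₁) := by
      rw [le_div_iff₀ (by positivity)]
      have : (1 - δ₁ / a) * (a + δ₁) = a - δ₁ ^ 2 / a := by field_simp; ring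
      rw [this]
      have : 0 ≤ δ₁ ^ 2 / a := by positivity
      linarith
    have h2 : -2 ≤ -(δ₁ / a) := by
      have : δ₁ / a ≤ 1 := by rw [div_le_one ha0]; exact hA1.le
      linarith
    have h3 := one_add_mul_le_pow h2 (k + 1)
    have h4 : (1 + -(δ₁ / a)) ^ (k + 1) ≤ p1 := by
      rw [hp1]
      apply pow_le_pow_left₀ _ (by linarith)
      have : δ₁ / a ≤ 1 := by rw [div_le_one ha0]; exact hA1.le
      linarith
    have h5 : 1 + ((k + 1 : ℕ) : ℝ) * -(δ₁ / a) = 1 - η := by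
      rw [hη]
      push_cast
      ring
    linarith
  have key : p2 ^ 2 ≤ 25 * η := by
    refine mb_num (X1 := (a : ℂ) ^ (k + 1) * Dk a k ρ₁.im) (X2 := (a : ℂ) ^ (k + 1) * Dk a k ρ₂.im)
      (X3 := (a : ℂ) ^ (k + 1) * Dk a k (ρ₂.im - ρ₁.im)) (x0 := a ^ (k + 1) * ∑' n : ℕ, dco a k n)
      hηpos hE0 hEη hE'η hE'4 (by positivity) hx0 hX1 hX2 ?_ hp1low hp2pos.le hp2one ?_
    · rw [norm_mul, norm_pow, Complex.norm_real, Real.norm_eq_abs, abs_of_pos ha0]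
      exact hX3
    · have e1 : (a : ℂ) ^ (k + 1) * Dk a k ρ₂.im + (a : ℂ) ^ (k + 1) * Dk a k (ρ₂.im - ρ₁.im) =
          (a : ℂ) ^ (k + 1) * (Dk a k ρ₂.im + Dk a k (ρ₂.im - ρ₁.im)) := by ring
      have e2 : ((a : ℂ) ^ (k + 1) * Dk a k ρ₁.im).re = a ^ (k + 1) * (Dk a k ρ₁.im).re := by
        rw [← Complex.ofReal_pow, Complex.re_ofReal_mul]
      rw [e1, e2, norm_mul, norm_pow, Complex.norm_real, Real.norm_eq_abs, abs_of_pos ha0, mul_pow]
      have e3 : a ^ (k + 1) * (∑' n : ℕ, dco a k n) * (2 * (a ^ (k + 1) * ∑' n : ℕ, dco a k n) +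
          2 * (a ^ (k + 1) * (Dk a k ρ₁.im).re)) = (a ^ (k + 1)) ^ 2 * ((∑' n : ℕ, dco a k n) *
            (2 * (∑' n : ℕ, dco a k n) + 2 * (Dk a k ρ₁.im).re)) := by ring
      rw [e3]
      exact mul_le_mul_of_nonneg_left hvec (by positivity)
  -- conclusion
  have hexp : Real.exp (-(2 * ((k + 1) * δ₂ / a))) ≤ 25 * η := by
    refine le_trans ?_ key
    have h1 : Real.exp (-(δ₂ / a)) ≤ a / (a + δ₂) := by
      rw [Real.exp_neg, inv_le_comm₀ (Real.exp_pos _) (by positivity), inv_div]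
      have h2 := Real.add_one_le_exp (δ₂ / a)
      have h3 : (a + δ₂) / a = δ₂ / a + 1 := by field_simp; ring
      linarith
    have h4 : Real.exp (-(2 * ((k + 1) * δ₂ / a))) = (Real.exp (-(δ₂ / a)) ^ (k + 1)) ^ 2 := by
      rw [← Real.exp_nat_mul, ← Real.exp_nat_mul]
      congr 1
      push_cast
      ring
    rw [h4, hp2]
    apply pow_le_pow_left₀ (by positivity)
    exact pow_le_pow_left₀ (Real.exp_pos _).le h1 _
  have hlog : Real.log (c * r / (δ₁ * ℓ)) ≤ 2 * ((k + 1) * δ₂ / a) := by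
    have h1 : -(2 * ((k + 1) * δ₂ / a)) ≤ Real.log (25 * η) := by
      rw [Real.le_log_iff_exp_le (by positivity)]
      exact hexp
    have h2 : c * r / (δ₁ * ℓ) ≤ (25 * η)⁻¹ := by
      rw [hη]
      rw [le_inv_comm₀ harg (by positivity), inv_div]
      rw [mul_div_assoc', div_le_div_iff₀ ha0 (by positivity)]
      have h3 : (k : ℝ) + 1 ≤ 12 * ℓ := by linarith
      have h4 : 300 * c ≤ r1 := by linarith
      have h5 : 25 * ((k + 1) * δ₁) * (c * r) ≤ 25 * (12 * ℓ * δ₁) * (c * r) := by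
        apply mul_le_mul_of_nonneg_right _ (by positivity)
        have := mul_le_mul_of_nonneg_right h3 hd1.le
        linarith
      have h6 : 25 * (12 * ℓ * δ₁) * (c * r) = (300 * c) * (δ₁ * ℓ * r) := by ring
      have h7 : (300 * c) * (δ₁ * ℓ * r) ≤ r1 * (δ₁ * ℓ * r) := mul_le_mul_of_nonneg_right h4 (by positivity)
      have h8 : r1 * (δ₁ * ℓ * r) = δ₁ * ℓ * a := by rw [ha]; ring
      linarith
    have h3 : Real.log (c * r / (δ₁ * ℓ)) ≤ Real.log (25 * η)⁻¹ := Real.log_le_log harg h2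
    rw [Real.log_inv] at h3
    linarith
  have hfin : c * r * Real.log (c * r / (δ₁ * ℓ)) / ℓ ≤ c * r * (2 * ((k + 1) * δ₂ / a)) / ℓ := by
    apply div_le_div_of_nonneg_right _ (by linarith)
    exact mul_le_mul_of_nonneg_left hlog (by positivity)
  refine hfin.trans ?_
  rw [div_le_iff₀ (by linarith)]
  have h1 : c * r * (2 * ((k + 1) * δ₂ / a)) = (c / r1) * (2 * ((k + 1) * δ₂)) := by
    rw [ha]
    field_simp
  rw [h1]
  have h2 : c / r1 ≤ 1 / 300 := by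
    rw [div_le_iff₀ hr1]
    linarith
  have h3 : (k : ℝ) + 1 ≤ 12 * ℓ := by linarith
  have h4 : (k + 1) * δ₂ ≤ 12 * ℓ * δ₂ := mul_le_mul_of_nonneg_right h3 hd2.le
  have h5 : (c / r1) * (2 * ((k + 1) * δ₂)) ≤ 1 / 300 * (2 * ((k + 1) * δ₂)) :=
    mul_le_mul_of_nonneg_right h2 (by positivity)
  have h6 : 0 < ℓ * δ₂ := by positivity
  nlinarith

end Pool.Agent.H76.RP
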